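import Pool.Agent.H42.Cel1

open Pool.Agent.H42.CelDefs Cardinal

theorem Pool.Agent.Results.MP_3223b9_lc.Gap.result (κ : Cardinal.{0}) (hκ : ℵ₀ < κ)
    (H : Gap (Order.succ κ)) :
    ∃ (P : Type) (_ : Preorder P), pc P < κ ∧ κ < den P ∧
      ∃ (Q : Type) (_ : Preorder Q), cel Q ≤ κ ∧ κ < cel (P × Q) := by
  obtain ⟨P, i, h1, h2⟩ := Pool.Agent.H42.Cel1.main hκ H
  exact ⟨P, i, h1 ▸ hκ, h2⟩
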